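import Mathlib
import Pool.Agent.N59.VG.Transfer2

set_option autoImplicit false

/-!
# Strong infinite uniform spread of finitely generated simple vigorous groups
-/

namespace Pool.Agent.Results.MP_e4017d_al.StrongSpread

/-- A group of homeomorphisms of Cantor space is vigorous if for every clopen set `A` and all
nonempty clopen proper subsets `B`, `C` of `A` there is an element of the group which maps `B`
into `C` and fixes every point outside `A`. -/
def Vigorous (G : Subgroup ((ℕ → Bool) ≃ₜ (ℕ → Bool))) : Prop :=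
  ∀ A B C : Set (ℕ → Bool), IsClopen A → IsClopen B → IsClopen C → B.Nonempty → C.Nonempty →
    B ⊂ A → C ⊂ A → ∃ γ ∈ G, γ '' B ⊆ C ∧ ∀ x, x ∉ A → γ x = x

/-- Some orbit of `g` on Cantor space is finite. -/
def HasFiniteOrbit (g : (ℕ → Bool) ≃ₜ (ℕ → Bool)) : Prop :=
  ∃ x, (Set.range fun n : ℤ => (g ^ n) x).Finite

/-- For all `k ≥ 1` and all nontrivial `α 0, ..., α (k - 1)` a single conjugate `β` of `σ`
generates the group together with each `α i`. -/
def StrongElement (G : Type*) [Group G] (σ : G) : Prop :=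
  ∀ k : ℕ, 1 ≤ k → ∀ α : Fin k → G, (∀ i, α i ≠ 1) →
    ∃ β : G, IsConj σ β ∧ ∀ i, Subgroup.closure {α i, β} = ⊤

/-- Strong infinite uniform spread. -/
def StrongInfiniteUniformSpread (G : Type*) [Group G] : Prop :=
  ∃ σ : G, StrongElement G σ

/-- In a finitely generated simple vigorous group the elements with the strong property are
exactly the elements without finite orbits; in particular the group has strong infinite uniform
spread if and only if some element has no finite orbit. -/
theorem result (G : Subgroup ((ℕ → Bool) ≃ₜ (ℕ → Bool))) (hv : Vigorous G)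
    (hs : IsSimpleGroup G) (hfg : Group.FG G) :
    (∀ σ : G, StrongElement G σ ↔ ¬ HasFiniteOrbit σ) ∧
      (StrongInfiniteUniformSpread G ↔ ∃ g ∈ G, ¬ HasFiniteOrbit g) := by
  have h1 : ∀ σ : G, StrongElement G σ ↔ ¬ HasFiniteOrbit σ := by
    intro σ
    have h2 := Pool.Agent.N59.VG.strong_iff Pool.Agent.N59.VG.perf_cantor ⟨fun _ => true⟩ hs hv
      hfg σ
    unfold StrongElement HasFiniteOrbit
    rw [h2, not_exists]
  refine ⟨h1, ?_⟩
  constructor
  · rintro ⟨σ, hσ⟩
    exact ⟨σ, σ.2, (h1 σ).1 hσ⟩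
  · rintro ⟨g, hg, hg2⟩
    exact ⟨⟨g, hg⟩, (h1 ⟨g, hg⟩).2 hg2⟩

end Pool.Agent.Results.MP_e4017d_al.StrongSpread
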